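import Mathlib
import Pool.Agent.H71K9.Final

set_option autoImplicit false

/-!
# Schrijver-extremal regular bipartite graphs have essentially large girth

If a sequence of finite `d`-regular bipartite graphs is asymptotically extremal for
Schrijver's lower bound on the number of perfect matchings, then for every `k` the number
of `k`-cycles is of smaller order than the number of vertices.
-/

namespace Pool.Agent.Results.MP_ebeb23_co.SchrijverExtremal

open Filter Topology

universe u

/-- the number of perfect matchings of a graph -/
noncomputable def numPM {V : Type u} (G : SimpleGraph V) : ℕ :=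
  Nat.card {M : G.Subgraph // M.IsPerfectMatching}

/-- the number of cycles of length `k` in a graph, that is, of its subgraphs isomorphic to the
cycle graph on `k` vertices -/
noncomputable def numCycles {V : Type u} (G : SimpleGraph V) (k : ℕ) : ℕ :=
  Nat.card {H : G.Subgraph // Nonempty (H.coe ≃g SimpleGraph.cycleGraph k)}

/-- the constant in Schrijver's bound, per vertex -/
noncomputable def lambda (d : ℕ) : ℝ :=
  1 / 2 * Real.log (((d : ℝ) - 1) ^ ((d : ℤ) - 1) / (d : ℝ) ^ ((d : ℤ) - 2))

/-- A sequence of finite `d`-regular bipartite graphs with `ln pm(G_n) / v(G_n) → λ_d` has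
essentially large girth. -/
theorem result (d : ℕ) (hd : 1 ≤ d) (V : ℕ → Type u) [∀ n, Fintype (V n)]
    (G : ∀ n, SimpleGraph (V n)) (hbip : ∀ n, (G n).IsBipartite)
    (hreg : ∀ n v, ((G n).neighborSet v).ncard = d)
    (hlim : Tendsto (fun n => Real.log (numPM (G n)) / Nat.card (V n)) atTop (𝓝 (lambda d))) :
    ∀ k, 3 ≤ k →
      Tendsto (fun n => (numCycles (G n) k : ℝ) / Nat.card (V n)) atTop (𝓝 0) := by
  intro k hk
  obtain ⟨δ, hδ, H⟩ := Pool.Agent.H71K9.PM.quant.{u} d k hd hk
  have hbound : ∀ n, (numCycles (G n) k : ℝ) / Nat.card (V n) ≤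
      1 / δ * |Real.log (numPM (G n)) / Nat.card (V n) - lambda d| := by
    intro n
    have h1 : lambda d * Nat.card (V n) + δ * numCycles (G n) k ≤ Real.log (numPM (G n)) :=
      H (V n) (G n) (hbip n) (hreg n)
    rcases Nat.eq_zero_or_pos (Nat.card (V n)) with h0 | h0
    · rw [h0, Nat.cast_zero, div_zero]
      positivity
    · have h2 : (0 : ℝ) < Nat.card (V n) := by exact_mod_cast h0
      have h3 : δ * (numCycles (G n) k / Nat.card (V n)) ≤
          Real.log (numPM (G n)) / Nat.card (V n) - lambda d := by
        rw [le_sub_iff_add_le, le_div_iff₀ h2, add_mul]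
        have h4 : δ * ((numCycles (G n) k : ℝ) / Nat.card (V n)) * Nat.card (V n) =
            δ * numCycles (G n) k := by field_simp
        rw [h4]
        linarith
      have h5 := h3.trans (le_abs_self _)
      rw [one_div, ← div_eq_inv_mul, le_div_iff₀ hδ]
      linarith
  have hzero : Tendsto (fun n => 1 / δ * |Real.log (numPM (G n)) / Nat.card (V n) - lambda d|)
      atTop (𝓝 0) := by
    have h1 : Tendsto (fun n => Real.log (numPM (G n)) / Nat.card (V n) - lambda d) atTop
        (𝓝 0) := by
      have := hlim.sub_const (lambda d)
      rwa [sub_self] at this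
    have h2 := h1.abs.const_mul (1 / δ)
    rwa [abs_zero, mul_zero] at h2
  exact squeeze_zero (fun n => by positivity) hbound hzero

end Pool.Agent.Results.MP_ebeb23_co.SchrijverExtremal
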